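import Pool.Agent.helper19.WildOne
import Pool.Agent.helper19.WildTwoG

/-!
# Log terminality of wild `ℤ/2`-quotients of the formal plane is not determined by `(r, n)`

Over every algebraically closed field of characteristic two there are two wild `ℤ/2`-actions on
`k⟦x, y⟧` with the same invariants `(r, n) = (2, 0)`, such that the first quotient is log
terminal and the second one is not (although it is Gorenstein).

First action: `u ↦ u + x`, `v ↦ v + y` where `x = u² + u x`, `y = v² + v y`; the quotient is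
the rational double point `z² + x y z + x² y + x y² = 0` (type `D₄¹`).

Second action: `u ↦ u + y`, `v ↦ v + x³` where `x = u² + u y`, `y = v² + v x³`; the quotient is
`z² + x³ y z + y³ + x⁷ = 0`, and the divisor of the monomial valuation with weights
`(1, 2, 3)` on `(x, y, z)` has discrepancy `-1`.
-/

namespace Pool.Agent.Results.MP_f6ab55_ag.SamePairDifferentLt

open Pool.Agent.WildPlane MvPowerSeries

/-- Two wild actions of `ℤ/2` with the same pair `(r, n)`, one with log terminal quotient, the
other with a `ℚ`-Gorenstein quotient that is not log terminal. -/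
theorem result (k : Type*) [Field k] [IsAlgClosed k] [CharP k 2] :
    ∃ σ₁ σ₂ : Plane k ≃ₐ[k] Plane k,
      (IsWildAction 2 σ₁ ∧ jordanBlocks σ₁ = 2 ∧ IsNonlinearityIndex σ₁ 0) ∧
      (IsWildAction 2 σ₂ ∧ jordanBlocks σ₂ = 2 ∧ IsNonlinearityIndex σ₂ 0) ∧
      IsLogTerminal k (invariants σ₁) ∧
      IsQGorenstein k (invariants σ₂) ∧ ¬ IsLogTerminal k (invariants σ₂) := by
  have : PerfectRing k 2 := PerfectField.toPerfectRing 2
  obtain ⟨σ₁, x, y, hx, hy, h0, h1, hσx, hσy, hinv⟩ := exists_sigma_one (k := k)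
  obtain ⟨x', y', hx', hy'⟩ := exists_artin_two (k := k)
  obtain ⟨hx2, hy2, -, -, -, -⟩ := two_ord hx' hy'
  have hx1 : OrdGe 1 x' := hx2.mono (by norm_num)
  have hy1 : OrdGe 1 y' := hy2.mono (by norm_num)
  obtain ⟨σ₂, h0', h1', hσx', hσy', hinv', hφ⟩ := exists_sigma_two hx' hy' hx1 hy1
  have T : TwoData σ₂ x' y' (x' ^ 3 * X 0 + y' * X 1) := ⟨hx', hy', rfl, h0', h1', hσx', hσy'⟩
  refine ⟨σ₁, σ₂, one_invariants hx hy h0 h1 hinv, two_invariants hx' hy' h0' h1' hinv',
    one_logTerminal (FractionRing (invariants σ₁)) hx hy h0 h1 hσx hσy, ?_, ?_⟩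
  · exact ⟨_, _, 1, _, T.generator (FractionRing (invariants σ₂)) 1 one_pos⟩
  · exact two_not_logTerminal T hφ (K := FractionRing (invariants σ₂))

end Pool.Agent.Results.MP_f6ab55_ag.SamePairDifferentLt
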